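import Mathlib

/-!
# Sums against a decreasing log-convex weight control the increments of the partial sums

Kaluza's lemma: the power series inverse to `∑ a_n z^n`, `a` positive, decreasing, log-convex, `a_0 = 1`, is
`1 - ∑ p_k z^k` with `p_k ≥ 0`, `∑ p_k ≤ 1`.
-/

set_option autoImplicit false
open Finset

namespace Pool.Agent.Helper90.EW

/-- The coefficients `c_j`, `c_0 = 1`, with `∑_{j ≤ n} c_j a_{n-j} = 1` for every `n`. -/
noncomputable def cc (a : ℕ → ℝ) : ℕ → ℝ
  | 0 => 1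
  | n + 1 => 1 - ∑ j : Fin (n + 1), cc a j * a (n + 1 - j)

lemma cc_succ (a : ℕ → ℝ) (n : ℕ) : cc a (n + 1) = 1 - ∑ j ∈ range (n + 1), cc a j * a (n + 1 - j) := by
  rw [cc, Fin.sum_univ_eq_sum_range (fun j => cc a j * a (n + 1 - j))]

lemma cc_conv {a : ℕ → ℝ} (h0 : a 0 = 1) (n : ℕ) : ∑ j ∈ range (n + 1), cc a j * a (n - j) = 1 := by
  rcases n with _ | n
  · simp [cc, h0]
  · rw [sum_range_succ, Nat.sub_self, h0, mul_one, cc_succ]
    ring

/-- The differences `p_j = c_{j-1} - c_j`. -/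
lemma p_conv {a : ℕ → ℝ} (h0 : a 0 = 1) (n : ℕ) :
    ∑ j ∈ range (n + 1), (cc a j - cc a (j + 1)) * a (n - j) = a (n + 1) := by
  have h1 := cc_conv h0 n
  have h2 := cc_conv h0 (n + 1)
  rw [sum_range_succ'] at h2
  simp only [Nat.add_sub_add_right, Nat.sub_zero] at h2
  have h3 : cc a 0 = 1 := by simp [cc]
  rw [h3, one_mul] at h2
  simp_rw [sub_mul]
  rw [sum_sub_distrib, h1]
  linarith

/-- Kaluza's lemma. -/
lemma p_nonneg {a : ℕ → ℝ} (h0 : a 0 = 1) (hpos : ∀ n, 0 < a n) (hlc : ∀ n, a (n + 1) ^ 2 ≤ a n * a (n + 2)) :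
    ∀ n, 0 ≤ cc a n - cc a (n + 1) := by
  -- the ratios increase
  have hr1 : ∀ n, a (n + 1) / a n ≤ a (n + 2) / a (n + 1) := by
    intro n
    rw [div_le_div_iff₀ (hpos n) (hpos (n + 1))]
    have := hlc n
    nlinarith
  have hr : Monotone fun n => a (n + 1) / a n := monotone_nat_of_le_succ hr1
  intro n
  induction n using Nat.strong_induction_on with
  | _ n ih =>
    rcases n with _ | n
    · have h1 := p_conv h0 0
      simp only [zero_add, range_one, sum_singleton, Nat.sub_zero, h0, mul_one] at h1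
      rw [zero_add, h1]
      exact (hpos 1).le
    · have h1 := p_conv h0 (n + 1)
      have h2 := p_conv h0 n
      rw [sum_range_succ, Nat.sub_self, h0, mul_one] at h1
      have h3 : ∑ j ∈ range (n + 1), (cc a j - cc a (j + 1)) * a (n + 1 - j) ≤
          a (n + 2) / a (n + 1) * ∑ j ∈ range (n + 1), (cc a j - cc a (j + 1)) * a (n - j) := by
        rw [mul_sum]
        refine sum_le_sum fun j hj => ?_
        rw [mem_range] at hj
        have h4 := ih j hj
        have h5 : a (n - j + 1) / a (n - j) ≤ a (n + 2) / a (n + 1) := hr (show n - j ≤ n + 1 by omega)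
        rw [div_le_iff₀ (hpos _)] at h5
        rw [show n + 1 - j = n - j + 1 by omega]
        calc (cc a j - cc a (j + 1)) * a (n - j + 1) ≤ (cc a j - cc a (j + 1)) * (a (n + 2) / a (n + 1) * a (n - j)) :=
              mul_le_mul_of_nonneg_left h5 h4
          _ = _ := by ring
      rw [h2, div_mul_cancel₀ _ (hpos _).ne'] at h3
      have h6 : n + 1 + 1 = n + 2 := rfl
      rw [h6] at h1 ⊢
      linarith

lemma cc_nonneg {a : ℕ → ℝ} (h0 : a 0 = 1) (hpos : ∀ n, 0 < a n) (hlc : ∀ n, a (n + 1) ^ 2 ≤ a n * a (n + 2))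
    (hdec : Antitone a) (n : ℕ) : 0 ≤ cc a n := by
  rcases n with _ | n
  · simp [cc]
  · have h1 := p_conv h0 n
    have h2 : ∑ j ∈ range (n + 1), (cc a j - cc a (j + 1)) = 1 - cc a (n + 1) := by
      rw [sum_range_sub']
      simp [cc]
    have h3 : (∑ j ∈ range (n + 1), (cc a j - cc a (j + 1))) * a (n + 1) ≤
        ∑ j ∈ range (n + 1), (cc a j - cc a (j + 1)) * a (n - j) := by
      rw [sum_mul]
      refine sum_le_sum fun j _ => mul_le_mul_of_nonneg_left (hdec (by omega)) (p_nonneg h0 hpos hlc j)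
    rw [h1, h2] at h3
    have h4 := hpos (n + 1)
    nlinarith

/-- The sum of the first coefficients. -/
lemma cc_sum {a : ℕ → ℝ} (h0 : a 0 = 1) (hpos : ∀ n, 0 < a n) (hlc : ∀ n, a (n + 1) ^ 2 ≤ a n * a (n + 2))
    (hdec : Antitone a) (h : ℕ) : (∑ j ∈ range (h + 1), cc a j) * a h ≤ 1 := by
  rw [← cc_conv h0 h, sum_mul]
  exact sum_le_sum fun j _ => mul_le_mul_of_nonneg_left (hdec (by omega)) (cc_nonneg h0 hpos hlc hdec j)

/-- The weighted sums `r_m = ∑_{n < m} f(n) a_{m-1-n}`. -/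
noncomputable def rs (a f : ℕ → ℝ) (m : ℕ) : ℝ := ∑ n ∈ range m, f n * a (m - 1 - n)

/-- Inversion. -/
lemma inv {a : ℕ → ℝ} (h0 : a 0 = 1) (f : ℕ → ℝ) (M : ℕ) :
    ∑ i ∈ range M, cc a (M - 1 - i) * rs a f (i + 1) = ∑ n ∈ range M, f n := by
  unfold rs
  simp_rw [mul_sum]
  rw [Finset.sum_sigma']
  have e : ∑ x ∈ (range M).sigma fun i => range (i + 1), cc a (M - 1 - x.1) * (f x.2 * a (x.1 + 1 - 1 - x.2)) =
      ∑ x ∈ (range M).sigma fun n => Finset.Ico n M, cc a (M - 1 - x.2) * (f x.1 * a (x.2 - x.1)) := by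
    refine Finset.sum_bij' (fun x _ => ⟨x.2, x.1⟩) (fun x _ => ⟨x.2, x.1⟩) ?_ ?_ ?_ ?_ ?_
    · rintro ⟨i, n⟩ hx
      simp only [mem_sigma, mem_range, Finset.mem_Ico] at hx ⊢
      omega
    · rintro ⟨n, i⟩ hx
      simp only [mem_sigma, mem_range, Finset.mem_Ico] at hx ⊢
      omega
    · rintro ⟨i, n⟩ _
      rfl
    · rintro ⟨n, i⟩ _
      rfl
    · rintro ⟨i, n⟩ _
      simp
  rw [e, Finset.sum_sigma]
  refine sum_congr rfl fun n hn => ?_
  dsimp only
  rw [mem_range] at hn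
  have h1 := cc_conv h0 (M - 1 - n)
  have h2 : ∑ i ∈ Finset.Ico n M, cc a (M - 1 - i) * (f n * a (i - n)) =
      f n * ∑ j ∈ range (M - 1 - n + 1), cc a j * a (M - 1 - n - j) := by
    rw [mul_sum]
    refine Finset.sum_bij' (fun i _ => M - 1 - i) (fun j _ => M - 1 - j) ?_ ?_ ?_ ?_ ?_
    · intro i hi
      simp only [mem_range, Finset.mem_Ico] at hi ⊢
      omega
    · intro j hj
      simp only [mem_range, Finset.mem_Ico] at hj ⊢
      omega
    · intro i hi
      simp only [Finset.mem_Ico] at hi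
      omega
    · intro j hj
      simp only [mem_range] at hj
      omega
    · intro i hi
      simp only [Finset.mem_Ico] at hi
      rw [show M - 1 - n - (M - 1 - i) = i - n by omega]
      ring
  rw [h2, h1, mul_one]

/-- **The increments**: `|∑_{M ≤ n < M + h} f(n)| ≤ 2 R / a_{h-1}` if `|r_m| ≤ R` for `m ≤ M + h`. -/
theorem incr {a : ℕ → ℝ} (h0 : a 0 = 1) (hpos : ∀ n, 0 < a n) (hlc : ∀ n, a (n + 1) ^ 2 ≤ a n * a (n + 2))
    (hdec : Antitone a) (f : ℕ → ℝ) {M h : ℕ} {R : ℝ} (hR : ∀ m, m ≤ M + (h + 1) → |rs a f m| ≤ R) :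
    |∑ n ∈ range (M + (h + 1)), f n - ∑ n ∈ range M, f n| * a h ≤ 2 * R := by
  have hc := cc_nonneg h0 hpos hlc hdec
  have hR0 : 0 ≤ R := (abs_nonneg _).trans (hR 0 (by omega))
  have hanti : Antitone (cc a) := antitone_nat_of_succ_le fun n => by
    have := p_nonneg h0 hpos hlc n
    linarith
  rw [← inv h0 f (M + (h + 1)), ← inv h0 f M, Finset.sum_range_add]
  have e1 : ∑ i ∈ range M, cc a (M + (h + 1) - 1 - i) * rs a f (i + 1) +
      ∑ i ∈ range (h + 1), cc a (M + (h + 1) - 1 - (M + i)) * rs a f (M + i + 1) -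
      ∑ i ∈ range M, cc a (M - 1 - i) * rs a f (i + 1) =
      -(∑ i ∈ range M, (cc a (M - 1 - i) - cc a (M + (h + 1) - 1 - i)) * rs a f (i + 1)) +
      ∑ i ∈ range (h + 1), cc a (M + (h + 1) - 1 - (M + i)) * rs a f (M + i + 1) := by
    simp_rw [sub_mul]
    rw [sum_sub_distrib]
    ring
  rw [e1]
  have hs1 : |∑ i ∈ range M, (cc a (M - 1 - i) - cc a (M + (h + 1) - 1 - i)) * rs a f (i + 1)| ≤
      (∑ j ∈ range (h + 1), cc a j) * R := by
    calc _ ≤ ∑ i ∈ range M, |(cc a (M - 1 - i) - cc a (M + (h + 1) - 1 - i)) * rs a f (i + 1)| := abs_sum_le_sum_abs _ _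
      _ ≤ ∑ i ∈ range M, (cc a (M - 1 - i) - cc a (M + (h + 1) - 1 - i)) * R := by
        refine sum_le_sum fun i hi => ?_
        rw [mem_range] at hi
        have h1 : 0 ≤ cc a (M - 1 - i) - cc a (M + (h + 1) - 1 - i) := by
          have := hanti (show M - 1 - i ≤ M + (h + 1) - 1 - i by omega)
          linarith
        rw [abs_mul, abs_of_nonneg h1]
        exact mul_le_mul_of_nonneg_left (hR _ (by omega)) h1
      _ = (∑ i ∈ range M, cc a i - ∑ i ∈ range M, cc a (i + (h + 1))) * R := by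
        rw [← sum_mul, sum_sub_distrib]
        congr 2
        · exact Finset.sum_range_reflect (fun i => cc a i) M
        · rw [← Finset.sum_range_reflect (fun i => cc a (i + (h + 1))) M]
          refine sum_congr rfl fun i hi => ?_
          rw [mem_range] at hi
          congr 1
          omega
      _ ≤ (∑ j ∈ range (h + 1), cc a j) * R := by
        refine mul_le_mul_of_nonneg_right ?_ hR0
        have h1 : ∑ i ∈ range (h + 1 + M), cc a i = ∑ i ∈ range (h + 1), cc a i + ∑ i ∈ range M, cc a (h + 1 + i) :=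
          Finset.sum_range_add _ _ _
        have h2 : ∑ i ∈ range M, cc a i ≤ ∑ i ∈ range (h + 1 + M), cc a i :=
          sum_le_sum_of_subset_of_nonneg (range_subset_range.2 (by omega)) fun i _ _ => hc i
        have h3 : ∑ i ∈ range M, cc a (i + (h + 1)) = ∑ i ∈ range M, cc a (h + 1 + i) :=
          sum_congr rfl fun i _ => by rw [add_comm]
        linarith
  have hs2 : |∑ i ∈ range (h + 1), cc a (M + (h + 1) - 1 - (M + i)) * rs a f (M + i + 1)| ≤
      (∑ j ∈ range (h + 1), cc a j) * R := by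
    calc _ ≤ ∑ i ∈ range (h + 1), |cc a (M + (h + 1) - 1 - (M + i)) * rs a f (M + i + 1)| := abs_sum_le_sum_abs _ _
      _ ≤ ∑ i ∈ range (h + 1), cc a (h + 1 - 1 - i) * R := by
        refine sum_le_sum fun i hi => ?_
        rw [mem_range] at hi
        rw [abs_mul, abs_of_nonneg (hc _), show M + (h + 1) - 1 - (M + i) = h + 1 - 1 - i by omega]
        exact mul_le_mul_of_nonneg_left (hR _ (by omega)) (hc _)
      _ = _ := by
        rw [← sum_mul, Finset.sum_range_reflect (fun i => cc a i) (h + 1)]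
  have h4 := cc_sum h0 hpos hlc hdec h
  have h5 := hpos h
  have h6 : |-(∑ i ∈ range M, (cc a (M - 1 - i) - cc a (M + (h + 1) - 1 - i)) * rs a f (i + 1)) +
      ∑ i ∈ range (h + 1), cc a (M + (h + 1) - 1 - (M + i)) * rs a f (M + i + 1)| ≤
      2 * ((∑ j ∈ range (h + 1), cc a j) * R) := by
    refine (abs_add_le _ _).trans ?_
    rw [abs_neg]
    linarith
  calc _ ≤ 2 * ((∑ j ∈ range (h + 1), cc a j) * R) * a h := mul_le_mul_of_nonneg_right h6 h5.le
    _ = 2 * R * ((∑ j ∈ range (h + 1), cc a j) * a h) := by ring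
    _ ≤ 2 * R * 1 := mul_le_mul_of_nonneg_left h4 (by positivity)
    _ = 2 * R := mul_one _

end Pool.Agent.Helper90.EW
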