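import Pool.Agent.Helper90.EW.Kal
import Pool.Agent.Helper99.MS.Main

/-!
# Large Riesz sums of negative order of the Moebius function
-/

set_option autoImplicit false
open Finset

namespace Pool.Agent.Helper90.EW

/-- The weights of the sums of order `-a`. -/
noncomputable def aw (a : ℝ) (k : ℕ) : ℝ := ((k : ℝ) + 1) ^ (-a)

lemma aw_zero (a : ℝ) : aw a 0 = 1 := by simp [aw]

lemma aw_pos (a : ℝ) (k : ℕ) : 0 < aw a k := by
  unfold aw
  positivity

lemma aw_lc {a : ℝ} (ha : 0 ≤ a) (k : ℕ) : aw a (k + 1) ^ 2 ≤ aw a k * aw a (k + 2) := by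
  unfold aw
  rw [← Real.mul_rpow (by positivity) (by positivity), ← Real.rpow_natCast, ← Real.rpow_mul (by positivity), mul_comm (-a),
    Real.rpow_mul (by positivity)]
  refine Real.rpow_le_rpow_of_nonpos (by positivity) ?_ (by linarith)
  push_cast
  norm_cast
  nlinarith

lemma aw_anti {a : ℝ} (ha : 0 ≤ a) : Antitone (aw a) := by
  intro k m hkm
  unfold aw
  refine Real.rpow_le_rpow_of_nonpos (by positivity) ?_ (by linarith)
  have : (k : ℝ) ≤ m := by exact_mod_cast hkm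
  linarith

/-- The sum of order `-a`. -/
noncomputable def SR (a : ℝ) (N : ℕ) : ℝ :=
  ∑ n ∈ Finset.Ico 1 N, ((ArithmeticFunction.moebius n : ℤ) : ℝ) * (1 - (n : ℝ) / N) ^ (-a)

lemma SR_eq {a : ℝ} {N : ℕ} (hN : 1 ≤ N) :
    SR a N = (N : ℝ) ^ a * rs (aw a) (fun n => ((ArithmeticFunction.moebius n : ℤ) : ℝ)) N := by
  have hN0 : (0:ℝ) < N := by exact_mod_cast hN
  unfold SR rs aw
  rw [Finset.range_eq_Ico, Finset.sum_eq_sum_Ico_succ_bot hN]
  simp only [ArithmeticFunction.map_zero, Int.cast_zero, zero_mul, zero_add]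
  rw [mul_sum]
  refine sum_congr rfl fun n hn => ?_
  rw [Finset.mem_Ico] at hn
  have h1 : (((N - 1 - n : ℕ) : ℝ)) + 1 = N - n := by
    have h2 : N - 1 - n + 1 + n = N := by omega
    have h3 : (((N - 1 - n : ℕ) : ℝ)) + 1 + n = N := by exact_mod_cast h2
    linarith
  rw [h1]
  have h4 : (0:ℝ) < N - n := by
    have : (n : ℝ) < N := by exact_mod_cast hn.2
    linarith
  have h5 : 1 - (n : ℝ) / N = (N - n) / N := by field_simp
  rw [h5, Real.div_rpow h4.le hN0.le, Real.rpow_neg hN0.le]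
  field_simp

/-- `loglog x/(logloglog x)^3` -/
noncomputable def GG (x : ℝ) : ℝ := Real.log (Real.log x) / Real.log (Real.log (Real.log x)) ^ 3

lemma GG_mono {x y : ℝ} (hx : Real.exp (Real.exp (Real.exp 3)) ≤ x) (hxy : x ≤ y) : GG x ≤ GG y := by
  have hx0 : 0 < x := (Real.exp_pos _).trans_le hx
  have h1 : Real.exp (Real.exp 3) ≤ Real.log x := by rwa [Real.le_log_iff_exp_le hx0]
  have hl0 : 0 < Real.log x := (Real.exp_pos _).trans_le h1
  have h2 : Real.exp 3 ≤ Real.log (Real.log x) := by rwa [Real.le_log_iff_exp_le hl0]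
  have h20 : 0 < Real.log (Real.log x) := (Real.exp_pos _).trans_le h2
  have h3 : 3 ≤ Real.log (Real.log (Real.log x)) := by rwa [Real.le_log_iff_exp_le h20]
  have h4 : Real.log (Real.log x) ≤ Real.log (Real.log y) := Real.log_le_log hl0 (Real.log_le_log hx0 hxy)
  set v := Real.log (Real.log x) with hv
  set w := Real.log (Real.log y) with hw
  have hw0 : 0 < w := h20.trans_le h4
  have h5 : Real.log v ≤ Real.log w := Real.log_le_log h20 h4
  have hlv : 0 < Real.log v := by linarith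
  have hlw : 0 < Real.log w := by linarith
  unfold GG
  rw [← hv, ← hw, div_le_div_iff₀ (by positivity) (by positivity)]
  -- `v (log w)^3 ≤ w (log v)^3`
  have h6 : Real.log w / Real.log v ≤ 1 + (Real.log w - Real.log v) / 3 := by
    have h7 : Real.log w / Real.log v = 1 + (Real.log w - Real.log v) / Real.log v := by
      field_simp
      ring
    rw [h7]
    have h8 : (Real.log w - Real.log v) / Real.log v ≤ (Real.log w - Real.log v) / 3 :=
      div_le_div_of_nonneg_left (by linarith) (by norm_num) h3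
    linarith
  have h9 : 1 + (Real.log w - Real.log v) / 3 ≤ Real.exp ((Real.log w - Real.log v) / 3) := by
    have := Real.add_one_le_exp ((Real.log w - Real.log v) / 3)
    linarith
  have h10 : (Real.log w / Real.log v) ^ 3 ≤ w / v := by
    calc (Real.log w / Real.log v) ^ 3 ≤ (Real.exp ((Real.log w - Real.log v) / 3)) ^ 3 :=
          pow_le_pow_left₀ (by positivity) (h6.trans h9) 3
      _ = Real.exp (Real.log w - Real.log v) := by
        rw [← Real.exp_nat_mul]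
        congr 1
        push_cast
        ring
      _ = w / v := by rw [Real.exp_sub, Real.exp_log hw0, Real.exp_log h20]
  rw [div_pow, div_le_div_iff₀ (by positivity) h20] at h10
  linarith

lemma GG_double {x : ℝ} (hx : Real.exp (Real.exp (Real.exp 3)) ≤ x) : GG (2 * x) ≤ 11 / 10 * GG x := by
  have hx0 : 0 < x := (Real.exp_pos _).trans_le hx
  have h1 : Real.exp (Real.exp 3) ≤ Real.log x := by rwa [Real.le_log_iff_exp_le hx0]
  have hl0 : 0 < Real.log x := (Real.exp_pos _).trans_le h1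
  have h2 : Real.exp 3 ≤ Real.log (Real.log x) := by rwa [Real.le_log_iff_exp_le hl0]
  have h20 : 0 < Real.log (Real.log x) := (Real.exp_pos _).trans_le h2
  have h3 : 3 ≤ Real.log (Real.log (Real.log x)) := by rwa [Real.le_log_iff_exp_le h20]
  have he3 : (16:ℝ) ≤ Real.exp 3 := by
    have h := Real.exp_one_gt_d9
    have h4 : Real.exp 3 = Real.exp 1 ^ 3 := by
      rw [← Real.exp_nat_mul]
      norm_num
    rw [h4]
    have h5 : (2.7:ℝ) ≤ Real.exp 1 := by linarith
    calc (16:ℝ) ≤ 2.7 ^ 3 := by norm_num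
      _ ≤ _ := pow_le_pow_left₀ (by norm_num) h5 3
  have h4 : Real.log (2 * x) ≤ 2 * Real.log x := by
    rw [Real.log_mul (by norm_num) hx0.ne']
    have h5 : Real.log 2 ≤ 1 := by
      have := Real.log_two_lt_d9
      linarith
    have h6 : (1:ℝ) ≤ Real.log x := by
      have := Real.add_one_le_exp (Real.exp 3)
      linarith
    linarith
  have hl20 : 0 < Real.log (2 * x) := Real.log_pos (by
    have := Real.add_one_le_exp (Real.exp (Real.exp 3))
    have h7 := Real.exp_pos (Real.exp 3)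
    linarith)
  have h5 : Real.log (Real.log (2 * x)) ≤ 11 / 10 * Real.log (Real.log x) := by
    calc Real.log (Real.log (2 * x)) ≤ Real.log (2 * Real.log x) := Real.log_le_log hl20 h4
      _ = Real.log 2 + Real.log (Real.log x) := Real.log_mul (by norm_num) hl0.ne'
      _ ≤ 11 / 10 * Real.log (Real.log x) := by
        have := Real.log_two_lt_d9
        linarith
  have h6 : Real.log (Real.log x) ≤ Real.log (Real.log (2 * x)) :=
    Real.log_le_log hl0 (Real.log_le_log hx0 (by linarith))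
  have h7 : Real.log (Real.log (Real.log x)) ≤ Real.log (Real.log (Real.log (2 * x))) := Real.log_le_log h20 h6
  unfold GG
  rw [← mul_div_assoc]
  refine div_le_div₀ (by positivity) h5 (by positivity) ?_
  exact pow_le_pow_left₀ (by linarith) h7 3

lemma GG_tendsto : Filter.Tendsto (fun x : ℝ => GG x) Filter.atTop Filter.atTop := by
  have h2 : Filter.Tendsto (fun v : ℝ => v / Real.log v ^ 3) Filter.atTop Filter.atTop := by
    have h3 : Filter.Tendsto (fun v : ℝ => Real.log v ^ 3 / v) Filter.atTop (nhdsWithin 0 (Set.Ioi 0)) := by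
      refine tendsto_nhdsWithin_of_tendsto_nhds_of_eventually_within _ ?_ ?_
      · have h4 := (isLittleO_log_rpow_rpow_atTop (3:ℝ) (show (0:ℝ) < 1 by norm_num)).tendsto_div_nhds_zero
        refine h4.congr' ?_
        filter_upwards [Filter.eventually_gt_atTop 1] with v hv
        rw [Real.rpow_one]
        norm_cast
      · filter_upwards [Filter.eventually_gt_atTop (1:ℝ)] with v hv
        have h5 := Real.log_pos hv
        have h6 : 0 < Real.log v ^ 3 / v := div_pos (by positivity) (by linarith)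
        exact h6
    have h4 := h3.inv_tendsto_nhdsGT_zero
    refine h4.congr fun v => ?_
    simp [inv_div]
  exact h2.comp (Real.tendsto_log_atTop.comp Real.tendsto_log_atTop)

lemma GG_big : ∃ Z : ℝ, ∀ x : ℝ, Z ≤ x → 4 ≤ GG x :=
  Filter.eventually_atTop.1 (GG_tendsto.eventually_ge_atTop 4)

lemma GG_pos {m : ℝ} (hme : Real.exp (Real.exp (Real.exp 3)) ≤ m) : 0 < GG m := by
  have hm0 : (0:ℝ) < m := (Real.exp_pos _).trans_le hme
  have h4 : Real.exp (Real.exp 3) ≤ Real.log m := by rwa [Real.le_log_iff_exp_le hm0]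
  have hl0 : 0 < Real.log m := (Real.exp_pos _).trans_le h4
  have h5 : Real.exp 3 ≤ Real.log (Real.log m) := by rwa [Real.le_log_iff_exp_le hl0]
  have h50 : 0 < Real.log (Real.log m) := (Real.exp_pos _).trans_le h5
  have h6 : 3 ≤ Real.log (Real.log (Real.log m)) := by rwa [Real.le_log_iff_exp_le h50]
  unfold GG
  positivity

/-- There are arbitrarily large `x` such that for EVERY `0 < a < 1/2` some `N ≤ 2 x` has
`|∑_{n < N} μ(n) (1 - n/N)^(-a)| > (1/3) √N (log log x/(log log log x)^3)^a`. -/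
theorem riesz_unif (X : ℕ) : ∃ x : ℕ, X ≤ x ∧ ∀ a : ℝ, 0 < a → a < 1 / 2 → ∃ N : ℕ, 1 ≤ N ∧ N ≤ 2 * x ∧
    1 / 3 * √(N : ℝ) * GG x ^ a < |SR a N| := by
  set f : ℕ → ℝ := fun n => ((ArithmeticFunction.moebius n : ℤ) : ℝ) with hf
  obtain ⟨Z, hZ⟩ := GG_big
  obtain ⟨W, hW⟩ := exists_nat_ge (max Z 4)
  obtain ⟨x, h, hx, hh, hle, hlt⟩ := Pool.Agent.Helper99.MS.short_intervals (1 / 50) (by norm_num) (max X W)
  have hxW : (W : ℝ) ≤ x := by exact_mod_cast (le_max_right _ _).trans hx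
  have hxZ : Z ≤ x := (le_max_left _ _).trans (hW.trans hxW)
  have hx4 : (4:ℝ) ≤ x := (le_max_right _ _).trans (hW.trans hxW)
  have hx0 : (0:ℝ) < x := by linarith
  have hG4 := hZ x hxZ
  have hG0 : 0 < GG x := by linarith
  have hh0 : (0:ℝ) < h := by exact_mod_cast hh
  -- `h ≤ x/G`
  have hhG : (h : ℝ) ≤ x / GG x := by
    refine hle.trans (le_of_eq ?_)
    unfold GG
    rw [div_div_eq_mul_div]
  have hhx : (h : ℝ) ≤ x / 4 := hhG.trans (div_le_div_of_nonneg_left hx0.le (by norm_num) hG4)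
  have h2x : ((x + 1 + h : ℕ) : ℝ) ≤ 2 * x := by
    push_cast
    linarith
  have h2x' : x + 1 + h ≤ 2 * x := by exact_mod_cast h2x
  refine ⟨x, (le_max_left _ _).trans hx, fun a ha ha2 => ?_⟩
  by_contra hcon
  push Not at hcon
  -- the bound for the weighted sums
  set R : ℝ := 1 / 3 * ((2 * x : ℝ) ^ (1 / 2 - a) * GG x ^ a) with hR
  have hR0 : 0 ≤ R := by positivity
  have hRm : ∀ m, m ≤ x + 1 + (h - 1 + 1) → |rs (aw a) f m| ≤ R := by
    intro m hm
    rw [Nat.sub_add_cancel hh] at hm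
    rcases Nat.eq_zero_or_pos m with h1 | h1
    · rw [h1]
      simpa [rs] using hR0
    · have hm1 : 1 ≤ m := h1
      have hm0 : (0:ℝ) < m := by exact_mod_cast h1
      have hm2 : (m : ℝ) ≤ 2 * x := by
        refine le_trans ?_ h2x
        exact_mod_cast hm
      have h2 := hcon m hm1 (hm.trans h2x')
      rw [SR_eq hm1, abs_mul, abs_of_pos (Real.rpow_pos_of_pos hm0 a)] at h2
      have h5 : √(m : ℝ) = (m : ℝ) ^ a * (m : ℝ) ^ (1 / 2 - a) := by
        rw [← Real.rpow_add hm0, Real.sqrt_eq_rpow]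
        congr 1
        ring
      have h6 : (m : ℝ) ^ (1 / 2 - a) ≤ (2 * x : ℝ) ^ (1 / 2 - a) := Real.rpow_le_rpow hm0.le hm2 (by linarith)
      rw [h5] at h2
      have hma : 0 < (m : ℝ) ^ a := Real.rpow_pos_of_pos hm0 a
      have h7 : |rs (aw a) f m| ≤ 1 / 3 * ((m : ℝ) ^ (1 / 2 - a) * GG x ^ a) := by
        have h8 : (m : ℝ) ^ a * |rs (aw a) f m| ≤ (m : ℝ) ^ a * (1 / 3 * ((m : ℝ) ^ (1 / 2 - a) * GG x ^ a)) := by
          calc _ ≤ 1 / 3 * ((m : ℝ) ^ a * (m : ℝ) ^ (1 / 2 - a)) * GG x ^ a := h2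
            _ = _ := by ring
        exact le_of_mul_le_mul_left h8 hma
      refine h7.trans ?_
      rw [hR]
      exact mul_le_mul_of_nonneg_left (mul_le_mul_of_nonneg_right h6 (by positivity)) (by norm_num)
  have hinc := incr (aw_zero a) (aw_pos a) (aw_lc ha.le) (aw_anti ha.le) f (M := x + 1) (h := h - 1) hRm
  rw [Nat.sub_add_cancel hh] at hinc
  have e1 : ∑ n ∈ range (x + 1 + h), f n - ∑ n ∈ range (x + 1), f n = ∑ n ∈ Finset.Ioc x (x + h), f n := by
    have e2 : Finset.Ioc x (x + h) = Finset.Ico (x + 1) (x + 1 + h) := by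
      ext n
      simp only [Finset.mem_Ioc, Finset.mem_Ico]
      omega
    rw [e2, Finset.sum_Ico_eq_sub _ (by omega)]
  rw [e1] at hinc
  have haw : aw a (h - 1) = (h : ℝ) ^ (-a) := by
    unfold aw
    congr 1
    have : h - 1 + 1 = h := Nat.sub_add_cancel hh
    exact_mod_cast this
  rw [haw] at hinc
  have hha : 0 < (h : ℝ) ^ (-a) := Real.rpow_pos_of_pos hh0 _
  have h1 : (1 - 1 / 50) * √(x : ℝ) * (h : ℝ) ^ (-a) < 2 * R := (mul_lt_mul_of_pos_right hlt hha).trans_le hinc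
  -- from below
  have h2 : (x : ℝ) ^ (1 / 2 - a) * GG x ^ a ≤ √(x : ℝ) * (h : ℝ) ^ (-a) := by
    have h3 : (x / GG x : ℝ) ^ (-a) ≤ (h : ℝ) ^ (-a) := Real.rpow_le_rpow_of_nonpos hh0 hhG (by linarith)
    have h4 : (x / GG x : ℝ) ^ (-a) = (x : ℝ) ^ (-a) * GG x ^ a := by
      rw [Real.div_rpow hx0.le hG0.le, Real.rpow_neg hG0.le, div_inv_eq_mul]
    have h5 : (x : ℝ) ^ (1 / 2 - a) = √(x : ℝ) * (x : ℝ) ^ (-a) := by
      rw [Real.sqrt_eq_rpow, ← Real.rpow_add hx0]
      congr 1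
    rw [h5, mul_assoc, ← h4]
    exact mul_le_mul_of_nonneg_left h3 (Real.sqrt_nonneg _)
  have hP : 0 < (x : ℝ) ^ (1 / 2 - a) * GG x ^ a := by positivity
  have h3 : 49 / 50 * ((x : ℝ) ^ (1 / 2 - a) * GG x ^ a) < 2 * R := by
    calc 49 / 50 * ((x : ℝ) ^ (1 / 2 - a) * GG x ^ a) ≤ 49 / 50 * (√(x : ℝ) * (h : ℝ) ^ (-a)) :=
          mul_le_mul_of_nonneg_left h2 (by norm_num)
      _ = (1 - 1 / 50) * √(x : ℝ) * (h : ℝ) ^ (-a) := by ring
      _ < 2 * R := h1
  have h5 : (2 * x : ℝ) ^ (1 / 2 - a) = 2 ^ (1 / 2 - a) * (x : ℝ) ^ (1 / 2 - a) := Real.mul_rpow (by norm_num) hx0.le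
  have h7 : (2:ℝ) ^ (1 / 2 - a) ≤ 71 / 50 := by
    calc (2:ℝ) ^ (1 / 2 - a) ≤ (2:ℝ) ^ (1 / 2 : ℝ) := Real.rpow_le_rpow_of_exponent_le (by norm_num) (by linarith)
      _ = √2 := (Real.sqrt_eq_rpow 2).symm
      _ ≤ 71 / 50 := by
        rw [Real.sqrt_le_left (by norm_num)]
        norm_num
  rw [hR, h5] at h3
  have h10 : 2 * (1 / 3 * (2 ^ (1 / 2 - a) * (x : ℝ) ^ (1 / 2 - a) * GG x ^ a)) =
      2 / 3 * (2:ℝ) ^ (1 / 2 - a) * ((x : ℝ) ^ (1 / 2 - a) * GG x ^ a) := by ring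
  rw [h10] at h3
  nlinarith

/-- For `0 < a < 1/2` there are arbitrarily large `N` with
`|∑_{n < N} μ(n) (1 - n/N)^(-a)| > (3/10) √N (log log N/(log log log N)^3)^a`. -/
theorem riesz {a : ℝ} (ha : 0 < a) (ha2 : a < 1 / 2) (X : ℕ) : ∃ N : ℕ, X ≤ N ∧
    3 / 10 * √(N : ℝ) * GG N ^ a < |SR a N| := by
  obtain ⟨X₁, hX₁⟩ := exists_nat_ge (Real.exp (Real.exp (Real.exp 3)))
  set X₀ : ℕ := max (max X X₁) 1 with hX₀
  -- the values at small `N` are bounded
  set B : ℝ := ∑ m ∈ range X₀, |SR a m| with hB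
  have hBm : ∀ m, m < X₀ → |SR a m| ≤ B := fun m hm =>
    Finset.single_le_sum (f := fun m => |SR a m|) (fun _ _ => abs_nonneg _) (mem_range.2 hm)
  have hGt : ∃ Z : ℝ, ∀ x : ℝ, Z ≤ x → 3 * B + 3 ≤ GG x ^ a :=
    Filter.eventually_atTop.1 (((tendsto_rpow_atTop ha).comp GG_tendsto).eventually_ge_atTop (3 * B + 3))
  obtain ⟨Z, hZ⟩ := hGt
  obtain ⟨W, hW⟩ := exists_nat_ge Z
  obtain ⟨x, hx, H⟩ := riesz_unif (max X₀ W)
  obtain ⟨N, hN1, hN2, hN⟩ := H a ha ha2
  have hxX : X₀ ≤ x := (le_max_left _ _).trans hx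
  have hxZ : Z ≤ x := hW.trans (by exact_mod_cast (le_max_right _ _).trans hx)
  have hxe : Real.exp (Real.exp (Real.exp 3)) ≤ x := by
    refine hX₁.trans ?_
    exact_mod_cast ((le_max_right X X₁).trans (le_max_left _ 1)).trans hxX
  have hN0 : (1:ℝ) ≤ √(N : ℝ) := Real.one_le_sqrt.2 (by exact_mod_cast hN1)
  have hNX : X₀ ≤ N := by
    by_contra hlt
    push Not at hlt
    have h1 := hBm N hlt
    have h2 := hZ x hxZ
    have hB0 : 0 ≤ B := Finset.sum_nonneg fun _ _ => abs_nonneg _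
    have h3 : 1 / 3 * 1 * (3 * B + 3) ≤ 1 / 3 * √(N : ℝ) * GG x ^ a :=
      mul_le_mul (mul_le_mul_of_nonneg_left hN0 (by norm_num)) h2 (by linarith) (by positivity)
    linarith
  refine ⟨N, ((le_max_left X X₁).trans (le_max_left _ 1)).trans hNX, lt_of_le_of_lt ?_ hN⟩
  have hNe : Real.exp (Real.exp (Real.exp 3)) ≤ N := by
    refine hX₁.trans ?_
    exact_mod_cast ((le_max_right X X₁).trans (le_max_left _ 1)).trans hNX
  have hG0 := GG_pos hxe
  have h3 : GG N ≤ 11 / 10 * GG x := (GG_mono hNe (by exact_mod_cast hN2)).trans (GG_double hxe)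
  have h4 : GG N ^ a ≤ (11 / 10) ^ a * GG x ^ a := by
    rw [← Real.mul_rpow (by norm_num) hG0.le]
    exact Real.rpow_le_rpow (GG_pos hNe).le h3 ha.le
  have h8 : (11 / 10 : ℝ) ^ a ≤ 10 / 9 := by
    calc (11 / 10 : ℝ) ^ a ≤ (11 / 10 : ℝ) ^ (1:ℝ) := Real.rpow_le_rpow_of_exponent_le (by norm_num) (by linarith)
      _ = 11 / 10 := Real.rpow_one _
      _ ≤ 10 / 9 := by norm_num
  have hP : 0 < GG x ^ a := Real.rpow_pos_of_pos hG0 a
  calc 3 / 10 * √(N : ℝ) * GG N ^ a ≤ 3 / 10 * √(N : ℝ) * ((11 / 10) ^ a * GG x ^ a) :=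
        mul_le_mul_of_nonneg_left h4 (by positivity)
    _ = (3 / 10 * (11 / 10 : ℝ) ^ a) * (√(N : ℝ) * GG x ^ a) := by ring
    _ ≤ 1 / 3 * (√(N : ℝ) * GG x ^ a) := mul_le_mul_of_nonneg_right (by linarith) (by positivity)
    _ = _ := by ring

end Pool.Agent.Helper90.EW
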